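import Pool.Agent.Lib.MP_2e9e4b_al.Main

/-!
# Fixed subgroups of automorphisms of GBS groups with Betti number one

Let `(G, T)` be a GBS system (`IsGBSSystem`): a finitely generated group acting without inversions
on a simplicial tree with finite quotient graph, all vertex and edge stabilisers being infinite
cyclic.  Assume `β(G) = 1 - |V(T/G)| + |E(T/G)| = 1`, and that the image `Δ(G)` of the modular
homomorphism (computed with any non-trivial elliptic element `a`) is not of the form `⟨n⟩` for an
integer `n ≠ -1`.  Then the fixed subgroup of *every* automorphism of `G` is finitely generated.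

This is the negated form of question Q1; that `G` is non-elementary is not needed.

Idea of the proof.  An automorphism `φ` is either elliptic-preserving or not.  In the first case
there is a `φ`-equivariant map `f` of the vertex set of `T`; following Goldstein and Turner one
orients every vertex `x` towards `f x`, and it suffices to see that modulo `Fix φ` there are only
finitely many edges not oriented from either end, and that ascending unions of vertex stabilisers
are cyclic.  Both follow from the arithmetic of the modular homomorphism, and, when `φ` acts
trivially on exponents of elliptic elements, from the fact that (as `β = 1`, `Δ ≠ 1`) every crossed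
homomorphism `G → ℚ` vanishing on elliptic elements is principal.  In the second case `Fix φ` acts
freely and virtually centralises a hyperbolic element.
-/

namespace Pool.Agent.Results.MP_2e9e4b_al.FixedSubgroupsFG

open Pool.Agent.GBSFix

/-- For every GBS system `(G, T)` with `β(G) = 1` and `Δ(G) ≠ ⟨n⟩` for all integers `n ≠ -1`,
the fixed subgroup of every automorphism of `G` is finitely generated. -/
theorem result {G : Type*} [Group G] {V : Type*} [MulAction G V] (T : SimpleGraph V)
    (hGBS : IsGBSSystem G T) (hβ : betti G T = 1)
    (a : G) (ha1 : a ≠ 1) (hell : ∃ v : V, a • v = v)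
    (hΔ : ∀ n : ℤ, n ≠ 0 → n ≠ -1 → modulus a ≠ powersOf n)
    (φ : G ≃* G) : (fixedSubgroup φ).FG := by
  refine fixed_fg hGBS hβ a ha1 hell ?_ φ
  intro n hn
  by_cases h0 : n = 0
  · subst h0
    intro h
    have h1 : (0 : ℚ) ∈ modulus a := by
      rw [h]
      exact ⟨1, by simp⟩
    obtain ⟨g, m, k, hm, hk, _, h2⟩ := h1
    have hm' : (m : ℚ) ≠ 0 := by exact_mod_cast hm
    have hk' : (k : ℚ) ≠ 0 := by exact_mod_cast hk
    exact (div_ne_zero hm' hk') h2.symm
  · exact hΔ n h0 hn

end Pool.Agent.Results.MP_2e9e4b_al.FixedSubgroupsFG
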